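import Mathlib
import Pool.Agent.H555R4.DY.Stmts

set_option autoImplicit false

open Finset

namespace Pool.Agent.H46R3.Z5

open ArithmeticFunction (vonMangoldt)

/-- the weight of `n` for the class `a` -/
noncomputable def u (p a n : ℕ) : ℝ :=
  (if n % 2 ^ p = a then 1 else 0) - (1 / 2 ^ (p - 1)) * (if Odd n then 1 else 0)

theorem abs_u_le (p a n : ℕ) : |u p a n| ≤ 1 := by
  have h : (0 : ℝ) < 1 / 2 ^ (p - 1) := by positivity
  have h' : (1 : ℝ) / 2 ^ (p - 1) ≤ 1 := by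
    rw [div_le_one (by positivity)]
    exact one_le_pow₀ (by norm_num)
  unfold u
  rw [abs_le]
  split_ifs <;> constructor <;> linarith

/-- deviation of a weighted sum -/
noncomputable def dev (f : ℕ → ℝ) (p a x : ℕ) : ℝ := ∑ n ∈ Icc 1 x, f n * u p a n

theorem dev_eq (f : ℕ → ℝ) (p a x : ℕ) : dev f p a x =
    ∑ n ∈ (Icc 1 x).filter (fun n => n % 2 ^ p = a), f n -
      (1 / 2 ^ (p - 1)) * ∑ n ∈ (Icc 1 x).filter (fun n => Odd n), f n := by
  unfold dev u
  rw [sum_filter, sum_filter, mul_sum, ← sum_sub_distrib]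
  refine sum_congr rfl fun n _ => ?_
  split_ifs <;> ring

noncomputable def w (n : ℕ) : ℝ := 1 / Real.log n

theorem w_anti {m n : ℕ} (hm : 2 ≤ m) (hmn : m ≤ n) : w n ≤ w m := by
  unfold w
  apply one_div_le_one_div_of_le
  · exact Real.log_pos (by exact_mod_cast hm)
  · exact Real.log_le_log (by exact_mod_cast (by omega : 0 < m)) (by exact_mod_cast hmn)

theorem w_nonneg (n : ℕ) : 0 ≤ w n := by
  unfold w
  have := Real.log_natCast_nonneg n
  positivity

theorem abel (c : ℕ → ℝ) (y x : ℕ) (hyx : y ≤ x) :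
    ∑ n ∈ Ioc y x, c n * w n =
      (∑ m ∈ Icc 1 x, c m) * w x - (∑ m ∈ Icc 1 y, c m) * w y +
        ∑ n ∈ Ico y x, (∑ m ∈ Icc 1 n, c m) * (w n - w (n + 1)) := by
  induction x, hyx using Nat.le_induction with
  | base => simp
  | succ x hx ih =>
    rw [sum_Ioc_succ_top (by omega), ih, sum_Ico_succ_top hx, sum_Icc_succ_top (by omega : 1 ≤ x + 1)]
    ring

theorem sq_sum_le (y x : ℕ) (hy : 3 ≤ y) (hyx : y ≤ x) (T : ℕ → ℝ) :
    (∑ n ∈ Ico y x, T n * (w n - w (n + 1))) ^ 2 ≤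
      ∑ n ∈ Ico y x, T n ^ 2 * (w n - w (n + 1)) := by
  have hδ : ∀ n ∈ Ico y x, 0 ≤ w n - w (n + 1) := by
    intro n hn
    rw [mem_Ico] at hn
    linarith [w_anti (m := n) (n := n + 1) (by omega) (by omega)]
  have h1 := sum_mul_sq_le_sq_mul_sq (Ico y x) (fun n => T n * Real.sqrt (w n - w (n + 1)))
    (fun n => Real.sqrt (w n - w (n + 1)))
  have h2 : ∑ n ∈ Ico y x, T n * Real.sqrt (w n - w (n + 1)) * Real.sqrt (w n - w (n + 1)) =
      ∑ n ∈ Ico y x, T n * (w n - w (n + 1)) :=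
    sum_congr rfl fun n hn => by rw [mul_assoc, Real.mul_self_sqrt (hδ n hn)]
  have h3 : ∑ n ∈ Ico y x, (T n * Real.sqrt (w n - w (n + 1))) ^ 2 =
      ∑ n ∈ Ico y x, T n ^ 2 * (w n - w (n + 1)) :=
    sum_congr rfl fun n hn => by rw [mul_pow, Real.sq_sqrt (hδ n hn)]
  have h4 : ∑ n ∈ Ico y x, (Real.sqrt (w n - w (n + 1))) ^ 2 = w y - w x := by
    rw [sum_congr rfl fun n hn => Real.sq_sqrt (hδ n hn)]
    have := sum_Ico_consecutive (fun n => w n) (m := y) (n := y) (k := x)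
    clear this
    induction x, hyx using Nat.le_induction with
    | base => simp
    | succ x hx ih =>
      rw [sum_Ico_succ_top hx, ih (fun n hn => hδ n (by rw [mem_Ico] at hn ⊢; omega))]
      · ring
      · exact sum_mul_sq_le_sq_mul_sq _ _ _
      · exact sum_congr rfl fun n hn => by
          rw [mul_assoc, Real.mul_self_sqrt (hδ n (by rw [mem_Ico] at hn ⊢; omega))]
      · exact sum_congr rfl fun n hn => by
          rw [mul_pow, Real.sq_sqrt (hδ n (by rw [mem_Ico] at hn ⊢; omega))]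
  rw [h2, h3, h4] at h1
  have h5 : w y ≤ 1 := by
    unfold w
    rw [div_le_one (Real.log_pos (by exact_mod_cast (by omega : 1 < y)))]
    rw [Real.le_log_iff_exp_le (by exact_mod_cast (by omega : 0 < y))]
    have h6 : Real.exp 1 < 3 := Real.exp_one_lt_three
    have h7 : (3 : ℝ) ≤ y := by exact_mod_cast hy
    linarith
  have h6 : 0 ≤ ∑ n ∈ Ico y x, T n ^ 2 * (w n - w (n + 1)) :=
    sum_nonneg fun n hn => mul_nonneg (sq_nonneg _) (hδ n hn)
  have h7 := w_nonneg x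
  nlinarith

/-- the remainder: primes up to `y` and prime powers -/
noncomputable def rr (y n : ℕ) : ℝ :=
  (if n.Prime then 1 else 0) - (if y < n then vonMangoldt n * w n else 0)

theorem rr_sum (y x : ℕ) (hy : 3 ≤ y) (hyx : y ≤ x) :
    ∑ n ∈ Icc 1 x, |rr y n| ≤ y + 2 * Real.sqrt x * Real.log x := by
  have hx1 : (1 : ℝ) ≤ x := by exact_mod_cast (by omega : 1 ≤ x)
  have h1 : ∀ n ∈ Icc 1 x, |rr y n| ≤ (if n ≤ y then 1 else 0) +
      (if ¬ n.Prime then vonMangoldt n else 0) := by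
    intro n hn
    rw [mem_Icc] at hn
    unfold rr
    have hΛ : 0 ≤ vonMangoldt n := ArithmeticFunction.vonMangoldt_nonneg
    by_cases hny : y < n
    · have hnlog : 1 ≤ Real.log n := by
        rw [Real.le_log_iff_exp_le (by exact_mod_cast (by omega : 0 < n))]
        have h6 : Real.exp 1 < 3 := Real.exp_one_lt_three
        have h7 : (3 : ℝ) ≤ n := by exact_mod_cast (by omega : 3 ≤ n)
        linarith
      rw [if_pos hny, if_neg (by omega : ¬ n ≤ y)]
      by_cases hp : n.Prime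
      · rw [if_pos hp, ArithmeticFunction.vonMangoldt_apply_prime hp]
        unfold w
        rw [mul_one_div, div_self (by linarith), sub_self, abs_zero]
        simp [hp]
      · rw [if_neg hp, if_pos hp, zero_sub, abs_neg, abs_of_nonneg (mul_nonneg hΛ (w_nonneg n)),
          zero_add]
        unfold w
        rw [mul_one_div]
        exact div_le_self hΛ hnlog
    · rw [if_neg hny, if_pos (by omega : n ≤ y), sub_zero]
      have h2 : |(if n.Prime then (1 : ℝ) else 0)| ≤ 1 := by split_ifs <;> simp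
      have h3 : (0 : ℝ) ≤ if ¬ n.Prime then vonMangoldt n else 0 := by split_ifs <;> simp [hΛ]
      linarith
  refine (sum_le_sum h1).trans ?_
  rw [sum_add_distrib]
  have h2 : ∑ n ∈ Icc 1 x, (if n ≤ y then (1 : ℝ) else 0) ≤ y := by
    rw [← sum_filter, sum_const, nsmul_eq_mul, mul_one]
    have : (Icc 1 x).filter (fun n => n ≤ y) ⊆ Icc 1 y := by
      intro n hn
      rw [mem_filter, mem_Icc] at hn
      rw [mem_Icc]; omega
    have h3 := card_le_card this
    rw [Nat.card_Icc] at h3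
    exact_mod_cast h3
  have h3 : ∑ n ∈ Icc 1 x, (if ¬ n.Prime then vonMangoldt n else 0) ≤
      2 * Real.sqrt x * Real.log x := by
    refine le_trans (le_of_eq ?_) (Chebyshev.psi_sub_theta_le hx1)
    rw [Chebyshev.psi_sub_theta_eq_sum_not_prime]
    simp only [Nat.floor_natCast]
    rw [← sum_filter]
    rfl
  linarith


theorem prime_dev (p a x : ℕ) :
    (((Icc 1 x).filter (fun n => n.Prime ∧ n % 2 ^ p = a)).card : ℝ) -
        (1 / 2 ^ (p - 1)) * (((Icc 1 x).filter (fun n => n.Prime ∧ Odd n)).card : ℝ) =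
      dev (fun n => if n.Prime then 1 else 0) p a x := by
  unfold dev u
  rw [natCast_card_filter, natCast_card_filter, mul_sum, ← sum_sub_distrib]
  refine sum_congr rfl fun n _ => ?_
  by_cases h1 : n.Prime <;> by_cases h2 : n % 2 ^ p = a <;> by_cases h3 : Odd n <;> simp [h1, h2, h3]

theorem decomp (p a y x : ℕ) (hyx : y ≤ x) :
    dev (fun n => if n.Prime then 1 else 0) p a x =
      dev vonMangoldt p a x * w x - dev vonMangoldt p a y * w y +
        ∑ n ∈ Ico y x, dev vonMangoldt p a n * (w n - w (n + 1)) +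
        ∑ n ∈ Icc 1 x, rr y n * u p a n := by
  have h1 := abel (fun n => vonMangoldt n * u p a n) y x hyx
  have h2 : ∑ n ∈ Icc 1 x, (if y < n then vonMangoldt n * w n else 0) * u p a n =
      ∑ n ∈ Ioc y x, vonMangoldt n * u p a n * w n := by
    have h3 : Ioc y x = (Icc 1 x).filter (fun n => y < n) := by
      ext n
      rw [mem_Ioc, mem_filter, mem_Icc]
      omega
    rw [h3, sum_filter]
    refine sum_congr rfl fun n _ => ?_
    split_ifs <;> ring
  have h4 : dev (fun n => if n.Prime then 1 else 0) p a x =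
      ∑ n ∈ Ioc y x, vonMangoldt n * u p a n * w n + ∑ n ∈ Icc 1 x, rr y n * u p a n := by
    rw [← h2, ← sum_add_distrib]
    unfold dev rr
    exact sum_congr rfl fun n _ => by ring
  rw [h4, h1]
  rfl

theorem w_le_one {n : ℕ} (hn : 3 ≤ n) : w n ≤ 1 := by
  unfold w
  rw [div_le_one (Real.log_pos (by exact_mod_cast (by omega : 1 < n)))]
  rw [Real.le_log_iff_exp_le (by exact_mod_cast (by omega : 0 < n))]
  have h6 : Real.exp 1 < 3 := Real.exp_one_lt_three
  have h7 : (3 : ℝ) ≤ n := by exact_mod_cast hn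
  linarith

theorem sum_delta (y x : ℕ) (hyx : y ≤ x) :
    ∑ n ∈ Ico y x, (w n - w (n + 1)) = w y - w x := by
  induction x, hyx using Nat.le_induction with
  | base => simp
  | succ x hx ih => rw [sum_Ico_succ_top hx, ih]; ring

theorem key (p y x : ℕ) (V B : ℝ) (hy : 3 ≤ y) (hyx : y ≤ x) (hV : 0 ≤ V)
    (hD : ∀ n, y ≤ n → n ≤ x →
      ∑ a ∈ (range (2 ^ p)).filter (fun a => Odd a), dev vonMangoldt p a n ^ 2 ≤ V)
    (hB : (y : ℝ) + 2 * Real.sqrt x * Real.log x ≤ B) :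
    ∑ a ∈ (range (2 ^ p)).filter (fun a => Odd a),
      dev (fun n => if n.Prime then 1 else 0) p a x ^ 2 ≤ 12 * V + 4 * (2 ^ p * B ^ 2) := by
  have hB0 : 0 ≤ B := by
    refine le_trans ?_ hB
    have := Real.log_natCast_nonneg x
    positivity
  have hwx0 := w_nonneg x
  have hwy0 := w_nonneg y
  have hwx1 := w_le_one (n := x) (by omega)
  have hwy1 := w_le_one hy
  have h1 : ∀ a, dev (fun n => if n.Prime then 1 else 0) p a x ^ 2 ≤
      4 * (dev vonMangoldt p a x ^ 2 + dev vonMangoldt p a y ^ 2 +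
        ∑ n ∈ Ico y x, dev vonMangoldt p a n ^ 2 * (w n - w (n + 1)) + B ^ 2) := by
    intro a
    rw [decomp p a y x hyx]
    have h2 := sq_sum_le y x hy hyx (fun n => dev vonMangoldt p a n)
    have h3 : |∑ n ∈ Icc 1 x, rr y n * u p a n| ≤ B := by
      refine (abs_sum_le_sum_abs _ _).trans (le_trans ?_ ((rr_sum y x hy hyx).trans hB))
      refine sum_le_sum fun n _ => ?_
      rw [abs_mul]
      exact mul_le_of_le_one_right (abs_nonneg _) (abs_u_le p a n)
    have h4 : (∑ n ∈ Icc 1 x, rr y n * u p a n) ^ 2 ≤ B ^ 2 := sq_le_sq' (abs_le.1 h3).1 (abs_le.1 h3).2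
    have h5 : (dev vonMangoldt p a x * w x) ^ 2 ≤ dev vonMangoldt p a x ^ 2 := by
      rw [mul_pow]
      exact mul_le_of_le_one_right (sq_nonneg _) (pow_le_one₀ hwx0 hwx1)
    have h6 : (dev vonMangoldt p a y * w y) ^ 2 ≤ dev vonMangoldt p a y ^ 2 := by
      rw [mul_pow]
      exact mul_le_of_le_one_right (sq_nonneg _) (pow_le_one₀ hwy0 hwy1)
    have h7 : ∀ e f g h : ℝ, (e - f + g + h) ^ 2 ≤ 4 * (e ^ 2 + f ^ 2 + g ^ 2 + h ^ 2) := by
      intro e f g h
      nlinarith [sq_nonneg (e + f), sq_nonneg (e - g), sq_nonneg (e - h), sq_nonneg (f + g),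
        sq_nonneg (f + h), sq_nonneg (g - h)]
    refine (h7 _ _ _ _).trans ?_
    linarith
  refine (sum_le_sum fun a _ => h1 a).trans ?_
  rw [← mul_sum, sum_add_distrib, sum_add_distrib, sum_add_distrib, sum_const, nsmul_eq_mul]
  have h2 := hD x hyx le_rfl
  have h3 := hD y le_rfl hyx
  have h4 : ∑ a ∈ (range (2 ^ p)).filter (fun a => Odd a),
      ∑ n ∈ Ico y x, dev vonMangoldt p a n ^ 2 * (w n - w (n + 1)) ≤ V := by
    rw [sum_comm]
    have h5 : ∀ n ∈ Ico y x, ∑ a ∈ (range (2 ^ p)).filter (fun a => Odd a),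
        dev vonMangoldt p a n ^ 2 * (w n - w (n + 1)) ≤ V * (w n - w (n + 1)) := by
      intro n hn
      rw [mem_Ico] at hn
      rw [← sum_mul]
      apply mul_le_mul_of_nonneg_right (hD n hn.1 hn.2.le)
      linarith [w_anti (m := n) (n := n + 1) (by omega) (by omega)]
    refine (sum_le_sum h5).trans ?_
    rw [← mul_sum, sum_delta y x hyx]
    nlinarith
  have h5 : (((range (2 ^ p)).filter (fun a => Odd a)).card : ℝ) * B ^ 2 ≤ 2 ^ p * B ^ 2 := by
    apply mul_le_mul_of_nonneg_right _ (sq_nonneg B)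
    have := (card_filter_le (range (2 ^ p)) (fun a => Odd a)).trans (card_range _).le
    exact_mod_cast this
  linarith

theorem threshold (A : ℕ) (X₁ : ℝ) : ∃ ℓ₀ : ℝ, ∀ ℓ : ℝ, ℓ₀ ≤ ℓ → X₁ ≤ Real.exp (ℓ / 3) ∧
    3 ≤ Real.log ℓ ∧ 24 * 3 ^ (A + 1) ≤ ℓ ∧ 72 * ℓ ^ (A + 2) ≤ Real.exp (ℓ / 2) ∧ 6 ≤ ℓ := by
  refine Filter.eventually_atTop.1 ?_
  refine Filter.Eventually.and ?_ (Filter.Eventually.and ?_ ((Filter.eventually_ge_atTop _).and
    (Filter.Eventually.and ?_ (Filter.eventually_ge_atTop _))))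
  · exact (Real.tendsto_exp_atTop.comp (Filter.tendsto_id.atTop_div_const
      (by norm_num : (0 : ℝ) < 3))).eventually_ge_atTop X₁
  · exact Real.tendsto_log_atTop.eventually_ge_atTop 3
  · have h2 := (Real.tendsto_pow_mul_exp_neg_atTop_nhds_zero (A + 2)).comp
      (Filter.tendsto_id.atTop_div_const (by norm_num : (0 : ℝ) < 2))
    filter_upwards [h2.eventually (gt_mem_nhds
      (show (0 : ℝ) < 1 / (72 * 2 ^ (A + 2)) by positivity))] with ℓ h5
    simp only [Function.comp, id] at h5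
    rw [Real.exp_neg, ← div_eq_mul_inv, div_lt_div_iff₀ (Real.exp_pos _) (by positivity),
      div_pow] at h5
    have h6 : ℓ ^ (A + 2) / 2 ^ (A + 2) * (72 * 2 ^ (A + 2)) = 72 * ℓ ^ (A + 2) := by
      field_simp
    rw [h6] at h5
    linarith

theorem taskZ5 : Pool.Agent.H555R4.DY.TaskZ5 := by
  intro h4 A
  obtain ⟨X₁, hX₁⟩ := h4 (A + 1)
  obtain ⟨ℓ₀, hℓ₀⟩ := threshold A X₁
  refine ⟨max (Real.exp ℓ₀) 1, ?_⟩
  intro x hx p hp hpx
  have hx1 : (1 : ℝ) ≤ x := (le_max_right _ _).trans hx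
  have hx0 : (0 : ℝ) < x := by linarith
  obtain ⟨ℓ, hℓ⟩ : ∃ ℓ : ℝ, ℓ = Real.log x := ⟨_, rfl⟩
  have hxe : (x : ℝ) = Real.exp ℓ := by rw [hℓ, Real.exp_log hx0]
  have hℓℓ : ℓ₀ ≤ ℓ := by
    rw [hℓ, Real.le_log_iff_exp_le hx0]
    exact (le_max_left _ _).trans hx
  obtain ⟨ea, eb, ec, ed, ee⟩ := hℓ₀ ℓ hℓℓ
  rw [← hℓ] at hpx ⊢
  have hℓ0 : 0 < ℓ := by linarith
  obtain ⟨y, hy⟩ : ∃ y : ℕ, y = Nat.sqrt x := ⟨_, rfl⟩
  have hy1 : y * y ≤ x := by rw [hy]; exact Nat.sqrt_le x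
  have hy2 : x < (y + 1) * (y + 1) := by rw [hy]; exact Nat.lt_succ_sqrt x
  have hsq : Real.sqrt x = Real.exp (ℓ / 2) := by
    rw [hxe, Real.sqrt_eq_iff_mul_self_eq (by positivity) (by positivity), ← Real.exp_add]
    congr 1; ring
  have hyle : (y : ℝ) ≤ Real.sqrt x := by
    apply Real.le_sqrt_of_sq_le
    have : ((y * y : ℕ) : ℝ) ≤ x := by exact_mod_cast hy1
    push_cast at this
    nlinarith
  have hyge : Real.exp (ℓ / 3) ≤ y := by
    have h1 : Real.sqrt x < y + 1 := by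
      rw [Real.sqrt_lt' (by positivity)]
      have : (x : ℝ) < (((y + 1) * (y + 1) : ℕ) : ℝ) := by exact_mod_cast hy2
      push_cast at this
      nlinarith
    have h2 : Real.exp (ℓ / 2) = Real.exp (ℓ / 3) * Real.exp (ℓ / 6) := by
      rw [← Real.exp_add]; congr 1; ring
    have h3 : (2 : ℝ) ≤ Real.exp (ℓ / 6) := by
      have := Real.add_one_le_exp (ℓ / 6)
      linarith
    have h4 : (1 : ℝ) ≤ Real.exp (ℓ / 3) := Real.one_le_exp (by positivity)
    rw [hsq, h2] at h1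
    nlinarith
  have hy3r : (3 : ℝ) ≤ y := by
    have := Real.add_one_le_exp (ℓ / 3)
    linarith
  have hy3 : 3 ≤ y := by exact_mod_cast hy3r
  have hyx : y ≤ x := (Nat.le_mul_self y).trans hy1
  have hlogy : ℓ / 3 ≤ Real.log y := by
    rw [Real.le_log_iff_exp_le (by linarith)]
    exact hyge
  have hlogy0 : 0 < Real.log y := by linarith
  have hP : (0 : ℝ) < 2 ^ p := by positivity
  obtain ⟨V, hV⟩ : ∃ V : ℝ, V = (x : ℝ) ^ 2 / (2 ^ p * Real.log y ^ (A + 1)) := ⟨_, rfl⟩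
  have hV0 : 0 ≤ V := by rw [hV]; positivity
  -- the hypothesis on `p`
  have hlog4 : (p : ℝ) * (Real.log ℓ) ^ 4 ≤ ℓ / 3 := by
    have h1 : (p : ℝ) * (Real.log ℓ) ^ 4 * 3 ≤ (p : ℝ) * (Real.log ℓ) ^ 5 := by
      have h2 : (Real.log ℓ) ^ 5 = (Real.log ℓ) ^ 4 * Real.log ℓ := by ring
      rw [h2, mul_assoc]
      apply mul_le_mul_of_nonneg_left _ (Nat.cast_nonneg p)
      exact mul_le_mul_of_nonneg_left eb (by positivity)
    linarith
  have hpℓ : (p : ℝ) * 243 ≤ ℓ := by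
    have h1 : (243 : ℝ) ≤ (Real.log ℓ) ^ 5 := by
      calc (243 : ℝ) = 3 ^ 5 := by norm_num
        _ ≤ (Real.log ℓ) ^ 5 := pow_le_pow_left₀ (by norm_num) eb 5
    have h2 : (p : ℝ) * 243 ≤ p * (Real.log ℓ) ^ 5 :=
      mul_le_mul_of_nonneg_left h1 (Nat.cast_nonneg p)
    linarith
  have hD : ∀ n, y ≤ n → n ≤ x →
      ∑ a ∈ (range (2 ^ p)).filter (fun a => Odd a), dev vonMangoldt p a n ^ 2 ≤ V := by
    intro n hyn hnx
    have hyn' : (y : ℝ) ≤ n := by exact_mod_cast hyn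
    have hnx' : (n : ℝ) ≤ x := by exact_mod_cast hnx
    have hlogn : Real.log y ≤ Real.log n := Real.log_le_log (by linarith) hyn'
    have hlognx : Real.log n ≤ ℓ := by rw [hℓ]; exact Real.log_le_log (by linarith) hnx'
    have hn1 : 1 ≤ Real.log n := by linarith
    have h1 := hX₁ n (ea.trans (hyge.trans hyn')) p hp (by
      have h2 : Real.log (Real.log n) ≤ Real.log ℓ := Real.log_le_log (by linarith) hlognx
      have h3 : 0 ≤ Real.log (Real.log n) := Real.log_nonneg hn1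
      calc (p : ℝ) * Real.log (Real.log n) ^ 4 ≤ p * (Real.log ℓ) ^ 4 :=
            mul_le_mul_of_nonneg_left (pow_le_pow_left₀ h3 h2 4) (Nat.cast_nonneg p)
        _ ≤ ℓ / 3 := hlog4
        _ ≤ Real.log n := by linarith)
    have h2 : ∀ a, dev vonMangoldt p a n = ∑ n ∈ (Icc 1 n).filter (fun n => n % 2 ^ p = a),
        vonMangoldt n - (1 / 2 ^ (p - 1)) * ∑ n ∈ (Icc 1 n).filter (fun n => Odd n),
          vonMangoldt n := fun a => dev_eq _ p a n
    simp only [h2]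
    refine h1.trans ?_
    rw [hV]
    apply div_le_div₀ (by positivity) (pow_le_pow_left₀ (Nat.cast_nonneg n) hnx' 2) (by positivity)
    exact mul_le_mul_of_nonneg_left (pow_le_pow_left₀ hlogy0.le hlogn _) hP.le
  have hB : (y : ℝ) + 2 * Real.sqrt x * Real.log x ≤ 3 * Real.sqrt x * ℓ := by
    rw [← hℓ]
    have h1 : Real.sqrt x ≤ Real.sqrt x * ℓ := le_mul_of_one_le_right (Real.sqrt_nonneg _) (by linarith)
    linarith
  have hkey := key p y x V (3 * Real.sqrt x * ℓ) hy3 hyx hV0 hD hB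
  simp only [prime_dev]
  refine hkey.trans ?_
  have hB2 : (3 * Real.sqrt x * ℓ) ^ 2 = 9 * x * ℓ ^ 2 := by
    rw [mul_pow, mul_pow, Real.sq_sqrt hx0.le]; ring
  rw [hB2]
  -- first term
  have hden : (0 : ℝ) < 2 ^ p * ℓ ^ A := by positivity
  have t1 : 12 * V ≤ 1 / 2 * ((x : ℝ) ^ 2 / (2 ^ p * ℓ ^ A)) := by
    have h1 : (ℓ / 3) ^ (A + 1) ≤ Real.log y ^ (A + 1) :=
      pow_le_pow_left₀ (by positivity) hlogy _
    have h2 : V ≤ (x : ℝ) ^ 2 / (2 ^ p * (ℓ / 3) ^ (A + 1)) := by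
      rw [hV]
      apply div_le_div_of_nonneg_left (by positivity) (by positivity)
      exact mul_le_mul_of_nonneg_left h1 hP.le
    have h3 : (x : ℝ) ^ 2 / (2 ^ p * (ℓ / 3) ^ (A + 1)) =
        (3 ^ (A + 1) / ℓ) * ((x : ℝ) ^ 2 / (2 ^ p * ℓ ^ A)) := by
      rw [div_pow, pow_succ ℓ A]
      field_simp
    have h4 : (3 : ℝ) ^ (A + 1) / ℓ ≤ 1 / 24 := by
      rw [div_le_div_iff₀ hℓ0 (by norm_num)]
      linarith
    have h5 : 0 ≤ (x : ℝ) ^ 2 / (2 ^ p * ℓ ^ A) := by positivity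
    have h6 := mul_le_mul_of_nonneg_right h4 h5
    rw [h3] at h2
    linarith
  have t2 : 4 * (2 ^ p * (9 * x * ℓ ^ 2)) ≤ 1 / 2 * ((x : ℝ) ^ 2 / (2 ^ p * ℓ ^ A)) := by
    have h1 : (2 : ℝ) ^ p * 2 ^ p ≤ Real.exp (ℓ / 2) := by
      have h0 : (2 : ℝ) ^ p * 2 ^ p = Real.exp (((p + p : ℕ) : ℝ) * Real.log 2) := by
        rw [← pow_add, Real.exp_nat_mul, Real.exp_log (by norm_num)]
      rw [h0]
      apply Real.exp_le_exp.2
      have h2 : Real.log 2 < 1 := by linarith [Real.log_two_lt_d9]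
      have h3 : 0 < Real.log 2 := Real.log_pos (by norm_num)
      push_cast
      have h4 : (0 : ℝ) ≤ p := Nat.cast_nonneg p
      nlinarith
    have h2 : 72 * ((2 : ℝ) ^ p * 2 ^ p) * ℓ ^ (A + 2) ≤ x := by
      calc 72 * ((2 : ℝ) ^ p * 2 ^ p) * ℓ ^ (A + 2)
          = ((2 : ℝ) ^ p * 2 ^ p) * (72 * ℓ ^ (A + 2)) := by ring
        _ ≤ Real.exp (ℓ / 2) * Real.exp (ℓ / 2) :=
            mul_le_mul h1 ed (by positivity) (by positivity)
        _ = x := by rw [hxe, ← Real.exp_add]; congr 1; ring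
    rw [mul_div_assoc', le_div_iff₀ hden]
    have h3 := mul_le_mul_of_nonneg_left h2 hx0.le
    have h4 : 4 * (2 ^ p * (9 * (x : ℝ) * ℓ ^ 2)) * (2 ^ p * ℓ ^ A) =
        1 / 2 * ((x : ℝ) * (72 * (2 ^ p * 2 ^ p) * ℓ ^ (A + 2))) := by
      rw [pow_add ℓ A 2]; ring
    rw [h4]
    nlinarith
  have hsum : 1 / 2 * ((x : ℝ) ^ 2 / (2 ^ p * ℓ ^ A)) + 1 / 2 * ((x : ℝ) ^ 2 / (2 ^ p * ℓ ^ A)) =
      (x : ℝ) ^ 2 / (2 ^ p * ℓ ^ A) := by ring
  linarith

end Pool.Agent.H46R3.Z5
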